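import Pool.Agent.MP_24718c_ag.Mg.Top

open MvPolynomial AlgebraicGeometry CategoryTheory Pool.Agent.MP_24718c_ag

universe u

namespace Pool.Agent.Results.MP_24718c_ag.BorelRational

/-- An irreducible component of the Hilbert scheme of `P^n` that contains a smooth Borel-fixed
point is rational, provided that in positive characteristic the ideal is strongly stable
(no condition in characteristic zero). -/
theorem result (k : Type u) [Field k] [IsAlgClosed k] (n : ℕ) (P : Polynomial ℚ)
    (H : Scheme.{u}) (π : H ⟶ Spec (CommRingCat.of k))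
    (fam : ∀ (B : Type u) [CommRing B] [Algebra k B], Pts π B →
      Ideal (MvPolynomial (Fin (n + 1)) B))
    (hH : IsHilbertScheme n P π fam)
    (I : Ideal (MvPolynomial (Fin (n + 1)) k)) (hhom : IsHomog I) (hsat : IsSaturated I)
    (hB : IsBorelFixed I)
    (hss : ringChar k ≠ 0 → ∀ (α : Fin (n + 1) →₀ ℕ) (i j : Fin (n + 1)), i < j →
      X j * monomial α (1 : k) ∈ I → X i * monomial α (1 : k) ∈ I)
    (s₀ : Pts π k) (hs₀ : Agree (fam k s₀) I)
    (U : H.Opens) (hU : s₀.1 (IsLocalRing.closedPoint k) ∈ U) (hsm : Smooth (U.ι ≫ π))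
    (Z : Scheme.{u}) [IsIntegral Z] (ι : Z ⟶ H) [IsClosedImmersion ι]
    (hZ : Set.range ι ∈ irreducibleComponents H)
    (hx : s₀.1 (IsLocalRing.closedPoint k) ∈ Set.range ι) :
    Scheme.IsRationalOver (ι ≫ π) := by
  have hmove : ∀ (α : Fin (n + 1) →₀ ℕ) (i j : Fin (n + 1)), i < j →
      monomial (α + Finsupp.single j 1) (1 : k) ∈ I →
      monomial (α + Finsupp.single i 1) (1 : k) ∈ I := by
    intro α i j hij h
    by_cases hc : ringChar k = 0
    · have : CharP k 0 := hc ▸ ringChar.charP k
      have : CharZero k := CharP.charP_to_charZero k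
      exact borel_move hB hij h
    · have h1 := hss hc α i j hij
      rw [X, X, monomial_mul, monomial_mul, one_mul, add_comm _ α, add_comm _ α] at h1
      exact h1 h
  have hE : IsUpperSet {α : Fin (n + 1) →₀ ℕ | monomial α (1 : k) ∈ I} := fun α β h hα => by
    have := I.mul_mem_left (monomial (β - α) (1 : k)) hα
    rwa [monomial_mul, tsub_add_cancel_of_le h, one_mul] at this
  have hz : FreeN {α : Fin (n + 1) →₀ ℕ | monomial α (1 : k) ∈ I} (Fin.last n) :=
    fun α h => hsat _ fun i => by
      rw [X, monomial_mul, one_mul, add_comm _ α]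
      rcases (Fin.le_last i).eq_or_lt with rfl | hi
      · exact h
      · exact hmove α i _ hi h
  have hI : I = monI k {α : Fin (n + 1) →₀ ℕ | monomial α (1 : k) ∈ I} := by
    refine le_antisymm (fun f hf => ?_) (Ideal.span_le.2 ?_)
    · rw [f.as_sum]
      refine Ideal.sum_mem _ fun α hα => ?_
      rw [← mul_one (coeff α f), ← C_mul_monomial]
      exact Ideal.mul_mem_left _ _ (Ideal.subset_span ⟨α, monomial_of_borel hB hf hα, rfl⟩)
    · rintro _ ⟨α, hα, rfl⟩
      exact hα
  exact rational_of_stable hH hE hmove hz s₀ (hI ▸ hs₀) U hU hsm ι hZ hx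

end Pool.Agent.Results.MP_24718c_ag.BorelRational
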